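import Pool.Agent.E8helper2.PS.Stm

set_option autoImplicit false
open MeasureTheory Filter Topology

namespace Pool.Agent.E8helper51.PS

open Pool.Agent.E8helper2.PS

lemma summable_phi {c : ℕ → ℂ} {M : ℝ} (hc : ∀ n, ‖c n‖ ≤ M) {w : ℂ} (hw : 0 < w.im) :
    Summable fun j : ℕ => c j * Complex.exp (Complex.I * j * w) := by
  have hM : 0 ≤ M := (norm_nonneg _).trans (hc 0)
  have hr : Real.exp (-w.im) < 1 := by
    rw [Real.exp_lt_one_iff]; linarith
  refine Summable.of_norm_bounded (g := fun j : ℕ => M * Real.exp (-w.im) ^ j) ?_ ?_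
  · exact (summable_geometric_of_lt_one (Real.exp_pos _).le hr).mul_left M
  · intro j
    rw [norm_mul, Complex.norm_exp]
    have h1 : (Complex.I * (j : ℂ) * w).re = (j : ℝ) * (-w.im) := by
      simp [Complex.mul_re, Complex.mul_im]
    rw [h1, Real.exp_nat_mul]
    exact mul_le_mul_of_nonneg_right (hc j) (by positivity)

/-- the finite sum `∑_{m<N} a m e^{-i(N-m)w}` -/
noncomputable def B (a : ℕ → ℂ) (N : ℕ) (w : ℂ) : ℂ :=
  ∑ m ∈ Finset.range N, a m * Complex.exp (-(Complex.I * ((N - m : ℕ) : ℂ) * w))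

lemma phi_rv (a : ℕ → ℂ) (N : ℕ) (w : ℂ) : Phi (rv a N) (-w) = B a N w := by
  unfold Phi B
  rw [tsum_eq_sum (s := Finset.Icc 1 N)]
  · refine Finset.sum_nbij' (fun j => N - j) (fun m => N - m) ?_ ?_ ?_ ?_ ?_
    · intro j hj
      rw [Finset.mem_Icc] at hj
      rw [Finset.mem_range]
      omega
    · intro m hm
      rw [Finset.mem_range] at hm
      rw [Finset.mem_Icc]
      omega
    · intro j hj
      rw [Finset.mem_Icc] at hj
      show N - (N - j) = j
      omega
    · intro m hm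
      rw [Finset.mem_range] at hm
      show N - (N - m) = m
      omega
    · intro j hj
      rw [Finset.mem_Icc] at hj
      have h1 : N - (N - j) = j := by omega
      simp only [rv, hj, and_self, if_true, h1]
      congr 2
      ring
  · intro j hj
    rw [Finset.mem_Icc] at hj
    simp only [rv, hj, if_false, zero_mul]

lemma phi_split {a : ℕ → ℂ} {M : ℝ} (ha : ∀ n, ‖a n‖ ≤ M) (N : ℕ) {w : ℂ} (hw : 0 < w.im) :
    Phi (sh a N) w = Complex.exp (-(Complex.I * N * w)) * Phi a w - B a N w := by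
  have hs := summable_phi ha hw
  have h1 := hs.sum_add_tsum_nat_add N
  have h2 : ∑' j : ℕ, a (j + N) * Complex.exp (Complex.I * ((j + N : ℕ) : ℂ) * w)
      = Complex.exp (Complex.I * N * w) * Phi (sh a N) w := by
    unfold Phi
    rw [← tsum_mul_left]
    apply tsum_congr
    intro j
    simp only [sh]
    rw [show Complex.I * ((j + N : ℕ) : ℂ) * w = Complex.I * N * w + Complex.I * j * w by
      push_cast; ring, Complex.exp_add, add_comm j N]
    ring
  have h3 : B a N w = Complex.exp (-(Complex.I * N * w)) *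
      ∑ j ∈ Finset.range N, a j * Complex.exp (Complex.I * j * w) := by
    unfold B
    rw [Finset.mul_sum]
    apply Finset.sum_congr rfl
    intro m hm
    rw [Finset.mem_range] at hm
    rw [show -(Complex.I * ((N - m : ℕ) : ℂ) * w) = -(Complex.I * N * w) + Complex.I * m * w by
      rw [Nat.cast_sub hm.le]; ring, Complex.exp_add]
    ring
  have h4 : Phi a w = ∑ j ∈ Finset.range N, a j * Complex.exp (Complex.I * j * w)
      + Complex.exp (Complex.I * N * w) * Phi (sh a N) w := by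
    rw [← h2]
    exact h1.symm
  rw [h3, h4]
  have h5 : Complex.exp (-(Complex.I * N * w)) * Complex.exp (Complex.I * N * w) = 1 := by
    rw [← Complex.exp_add]; simp
  linear_combination (-(Phi (sh a N) w)) * h5

lemma B_sub {a : ℕ → ℂ} {M : ℝ} (ha : ∀ n, ‖a n‖ ≤ M) (N : ℕ) (θ t : ℝ) (ht : 0 < t) :
    ‖B a N ((θ : ℂ) - t * Complex.I) - B a N ((θ : ℂ) + t * Complex.I)‖ ≤
      ∑ m ∈ Finset.range N, M * (Real.exp (((N - m : ℕ) : ℝ) * t) - Real.exp (-(((N - m : ℕ) : ℝ) * t))) := by
  unfold B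
  rw [← Finset.sum_sub_distrib]
  refine (norm_sum_le _ _).trans (Finset.sum_le_sum fun m _ => ?_)
  set k : ℕ := N - m
  have h1 : Complex.exp (-(Complex.I * (k : ℂ) * ((θ : ℂ) - t * Complex.I)))
      = Complex.exp (-(Complex.I * k * θ)) * ((Real.exp (-((k : ℝ) * t)) : ℝ) : ℂ) := by
    rw [Complex.ofReal_exp, ← Complex.exp_add]
    congr 1
    push_cast
    linear_combination (k : ℂ) * t * Complex.I_mul_I
  have h2 : Complex.exp (-(Complex.I * (k : ℂ) * ((θ : ℂ) + t * Complex.I)))
      = Complex.exp (-(Complex.I * k * θ)) * ((Real.exp ((k : ℝ) * t) : ℝ) : ℂ) := by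
    rw [Complex.ofReal_exp, ← Complex.exp_add]
    congr 1
    push_cast
    linear_combination (-(k : ℂ)) * t * Complex.I_mul_I
  have h3 : ‖Complex.exp (-(Complex.I * (k : ℂ) * (θ : ℂ)))‖ = 1 := by
    rw [Complex.norm_exp]
    simp [Complex.mul_re, Complex.mul_im]
  rw [h1, h2, ← mul_sub, ← mul_sub, norm_mul, norm_mul, h3, one_mul, ← Complex.ofReal_sub,
    Complex.norm_real, Real.norm_eq_abs, abs_sub_comm, abs_of_nonneg]
  · exact mul_le_mul_of_nonneg_right (ha m) (by
      have : Real.exp (-((k : ℝ) * t)) ≤ Real.exp ((k : ℝ) * t) := by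
        apply Real.exp_le_exp.mpr
        have : (0 : ℝ) ≤ (k : ℝ) * t := by positivity
        linarith
      linarith)
  · have : Real.exp (-((k : ℝ) * t)) ≤ Real.exp ((k : ℝ) * t) := by
      apply Real.exp_le_exp.mpr
      have : (0 : ℝ) ≤ (k : ℝ) * t := by positivity
      linarith
    linarith

lemma im_pos (θ : ℝ) {t : ℝ} (ht : 0 < t) : 0 < ((θ : ℂ) + t * Complex.I).im := by
  simpa using ht

lemma Dl_sub {a : ℕ → ℂ} {M : ℝ} (ha : ∀ n, ‖a n‖ ≤ M) (N : ℕ) (θ t : ℝ) (ht : 0 < t)
    (hP : ‖Phi a ((θ : ℂ) + t * Complex.I)‖ ≤ M) :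
    ‖Dl a N t θ - Complex.exp (-(Complex.I * N * (θ : ℂ))) * Phi a ((θ : ℂ) + t * Complex.I)‖ ≤
      (Real.exp (N * t) - 1) * M +
      ∑ m ∈ Finset.range N, M * (Real.exp (((N - m : ℕ) : ℝ) * t) - Real.exp (-(((N - m : ℕ) : ℝ) * t))) := by
  have h1 : Dl a N t θ - Complex.exp (-(Complex.I * N * (θ : ℂ))) * Phi a ((θ : ℂ) + t * Complex.I)
      = (((Real.exp (N * t) - 1 : ℝ) : ℂ) * Complex.exp (-(Complex.I * N * (θ : ℂ))) *
          Phi a ((θ : ℂ) + t * Complex.I)) +
        (B a N ((θ : ℂ) - t * Complex.I) - B a N ((θ : ℂ) + t * Complex.I)) := by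
    unfold Dl
    rw [phi_split ha N (im_pos θ ht),
      show -(θ : ℂ) + t * Complex.I = -((θ : ℂ) - t * Complex.I) by ring, phi_rv]
    have h2 : Complex.exp (-(Complex.I * N * ((θ : ℂ) + t * Complex.I)))
        = ((Real.exp (N * t) : ℝ) : ℂ) * Complex.exp (-(Complex.I * N * (θ : ℂ))) := by
      rw [Complex.ofReal_exp, ← Complex.exp_add]
      congr 1
      push_cast
      linear_combination (-(N : ℂ)) * t * Complex.I_mul_I
    rw [h2]
    push_cast
    ring
  rw [h1]
  refine (norm_add_le _ _).trans (add_le_add ?_ (B_sub ha N θ t ht))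
  have h3 : ‖Complex.exp (-(Complex.I * (N : ℂ) * (θ : ℂ)))‖ = 1 := by
    rw [Complex.norm_exp]
    simp [Complex.mul_re, Complex.mul_im]
  have h4 : 0 ≤ Real.exp (N * t) - 1 := by
    have : (0 : ℝ) ≤ N * t := by positivity
    have := Real.add_one_le_exp (N * t)
    linarith
  rw [norm_mul, norm_mul, h3, mul_one, Complex.norm_real, Real.norm_eq_abs, abs_of_nonneg h4]
  exact mul_le_mul_of_nonneg_left hP h4

lemma cont_phi (h3 : S_CONT) {c : ℕ → ℂ} {M : ℝ} (hc : ∀ n, ‖c n‖ ≤ M) {t : ℝ} (ht : 0 < t) :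
    Continuous fun θ : ℝ => Phi c ((θ : ℂ) + t * Complex.I) := by
  have h := (h3 c M hc).1.continuousOn
  have hg : Continuous fun θ : ℝ => ((θ : ℂ) + t * Complex.I) := by fun_prop
  exact h.comp_continuous hg (fun θ => im_pos θ ht)

theorem t_KLIM (h1 : S_ABEL) (h3 : S_CONT) : S_KLIM := by
  intro a M S hH x N
  have ha := hH.coef
  have hM : 0 ≤ M := (norm_nonneg _).trans (ha 0)
  set K : Set ℝ := S ∩ Set.Icc x (x + 2 * Real.pi) with hK
  have hKc : IsCompact K := isCompact_Icc.inter_left hH.closed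
  have hvol : volume K < ⊤ := hKc.measure_lt_top
  have hrv : ∀ n, ‖rv a N n‖ ≤ M := by
    intro n
    unfold rv
    split_ifs
    · exact ha _
    · simpa using hM
  have hsh : ∀ n, ‖sh a N n‖ ≤ M := fun n => ha _
  set C : ℝ → ℝ := fun t => (Real.exp (N * t) - 1) * M +
      ∑ m ∈ Finset.range N, M * (Real.exp (((N - m : ℕ) : ℝ) * t) - Real.exp (-(((N - m : ℕ) : ℝ) * t)))
    with hC
  have hC0 : Tendsto (fun t => C t * (volume K).toReal) (𝓝[>] 0) (𝓝 0) := by
    have hcont : Continuous fun t => C t * (volume K).toReal := by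
      rw [hC]; fun_prop
    have h := hcont.tendsto 0
    have h0 : C 0 * (volume K).toReal = 0 := by
      simp [hC]
    rw [h0] at h
    exact h.mono_left nhdsWithin_le_nhds
  apply squeeze_zero_norm' ?_ hC0
  filter_upwards [self_mem_nhdsWithin] with t ht
  have ht' : 0 < t := ht
  have hi1 : IntegrableOn (fun θ : ℝ => Dl a N t θ) K := by
    refine ContinuousOn.integrableOn_compact hKc ?_
    apply Continuous.continuousOn
    unfold Dl
    apply Continuous.add (cont_phi h3 hsh ht')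
    have h := (cont_phi h3 hrv ht').comp continuous_neg
    have he : (fun θ : ℝ => Phi (rv a N) (-(θ : ℂ) + t * Complex.I))
        = (fun θ : ℝ => Phi (rv a N) ((θ : ℂ) + t * Complex.I)) ∘ Neg.neg := by
      funext θ
      simp
    rw [he]
    exact h
  have hi2 : IntegrableOn (fun θ : ℝ => Complex.exp (-(Complex.I * N * (θ : ℂ))) *
      Phi a ((θ : ℂ) + t * Complex.I)) K := by
    refine ContinuousOn.integrableOn_compact hKc ?_
    apply Continuous.continuousOn
    exact Continuous.mul (by fun_prop) (cont_phi h3 ha ht')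
  rw [← integral_sub hi1 hi2]
  exact norm_setIntegral_le_of_norm_le_const hvol (fun θ hθ =>
    Dl_sub ha N θ t ht' (h1 a M θ t (hH.win θ hθ.1) ht'))

end Pool.Agent.E8helper51.PS
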